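import Pool.Agent.K9h59.VS.U

/-!
Long intervals whose largest prime factor is repeated are rare. At most `C (x / k + √x)` of the integers
`n ≤ x` lie in an interval `[u, v]` with `v - u ≥ k` such that the largest prime factor of
`u (u + 1) … v` divides this product twice; and for every `m` at most `C x / k ^ m` if
`16 log x ≤ k ≤ x ^ (1 / (32 m ^ 2))`.
-/

set_option autoImplicit false

namespace Pool.Agent.Results.MP_446be6_nt.FewLongIntervals

open Finset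

/-- the largest prime dividing `u (u + 1) … v` divides this product at least twice -/
def Admissible (u v : ℕ) : Prop :=
  1 ≤ u ∧ u ≤ v ∧ ∃ p : ℕ, p.Prime ∧ p ^ 2 ∣ ∏ m ∈ Icc u v, m ∧
    ∀ q : ℕ, q.Prime → q ∣ ∏ m ∈ Icc u v, m → q ≤ p

/-- `n` lies in an admissible interval `[u, v]` with `v - u ≥ k` -/
def Covered (k n : ℕ) : Prop :=
  ∃ u v : ℕ, Admissible u v ∧ u ≤ n ∧ n ≤ v ∧ k ≤ v - u

open Classical in
/-- **Few integers lie in long admissible intervals.** -/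
theorem result :
    (∃ C : ℝ, 0 < C ∧ ∀ k : ℕ, 1 ≤ k → ∀ x : ℝ, 1 ≤ x →
      (((Icc 1 ⌊x⌋₊).filter (Covered k)).card : ℝ) ≤ C * (x / k + Real.sqrt x)) ∧
    ∀ m : ℕ, 1 ≤ m → ∃ C : ℝ, 0 < C ∧ ∀ (k : ℕ) (x : ℝ), 2 ≤ x →
      16 * Real.log x ≤ k → (k : ℝ) ^ (32 * m ^ 2) ≤ x →
      (((Icc 1 ⌊x⌋₊).filter (Covered k)).card : ℝ) ≤ C * (x / (k : ℝ) ^ m) := by
  constructor
  · obtain ⟨C, hC, h⟩ := Pool.Agent.K9h59.VS.cov_total
    refine ⟨C, hC, fun k hk x hx => ?_⟩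
    refine (h k hk ⌊x⌋₊ ((Nat.one_le_floor_iff x).2 hx)).trans (mul_le_mul_of_nonneg_left ?_ hC.le)
    have h1 : ((⌊x⌋₊ : ℕ) : ℝ) ≤ x := Nat.floor_le (by linarith)
    exact add_le_add (div_le_div_of_nonneg_right h1 (by positivity)) (Real.sqrt_le_sqrt h1)
  · intro m hm
    exact Pool.Agent.K9h59.VS.cov_total_pow Pool.Agent.K9h59.VS.part Pool.Agent.K9h59.VS.sqm m hm

end Pool.Agent.Results.MP_446be6_nt.FewLongIntervals
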